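import Mathlib

/-!
# A balanced discrete configuration in hyperbolic space that is not group-balanced

Hyperbolic `n`-space is taken in the hyperboloid model.  For every `n ≥ 2` we give a discrete
configuration in `ℍⁿ` that is balanced but not group-balanced.

The configuration lives on the arithmetic surface `m² - 8 N(y) = 1`, `m > 0`, where
`y = a + b ω` is an Eisenstein integer and `N(y) = a² - a b + b²`.  It is the union of the two
disjoint families

* `A` : `m ≡ 1 (mod 4)` and `b ≡ 0 (mod 2)`;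
* `B` : `m ≡ 3 (mod 12)` and `a + b ≡ 1 (mod 3)`.

The point reflection in every point of the surface preserves `A`, and the rotation of order three
about every point of the surface preserves `B`.  Hence `A ∪ B` is balanced.  But at the point
`m = 1, y = 0` the nearest shell is a triangle of points of `B` and the next one is an antipodal
pair of points of `A`, so no symmetry can fix only this point.
-/

namespace Pool.Agent.Results.MP_906af0_co.BalancedNotGroupBalanced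

/-- The Lorentzian form `-x₀y₀ + x₁y₁ + ⋯ + xₙyₙ` on `ℝ^{n+1}`. -/
def lor {n : ℕ} (x y : Fin (n + 1) → ℝ) : ℝ :=
  -(x 0 * y 0) + ∑ i : Fin n, x i.succ * y i.succ

/-- Real hyperbolic `n`-space in the hyperboloid model:
the vectors `x` with `⟨x, x⟩ = -1` and `x₀ > 0`. -/
def Hyp (n : ℕ) : Type := {x : Fin (n + 1) → ℝ // lor x x = -1 ∧ 0 < x 0}

/-- The hyperbolic distance `ρ(P, Q) = arcosh (-⟨P, Q⟩)`. -/
noncomputable def rho {n : ℕ} (P Q : Hyp n) : ℝ := Real.arcosh (-(lor P.1 Q.1))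

/-- The unit tangent vector at `P` of the geodesic from `P` to `Q` (for `Q ≠ P`), as a vector of
`ℝ^{n+1}` orthogonal to `P`: the unit speed geodesic from `P` with initial velocity `u` is
`t ↦ cosh t • P + sinh t • u`, and it passes through `Q` at time `ρ(P, Q)`. -/
noncomputable def unitTangent {n : ℕ} (P Q : Hyp n) : Fin (n + 1) → ℝ :=
  (Real.sinh (rho P Q))⁻¹ • (Q.1 - Real.cosh (rho P Q) • P.1)

/-- A configuration is discrete if every ball contains only finitely many of its points. -/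
def IsDiscrete {n : ℕ} (C : Set (Hyp n)) : Prop :=
  ∀ (P : Hyp n) (r : ℝ), {Q | Q ∈ C ∧ rho P Q ≤ r}.Finite

/-- Balanced: for every point `P` of `C` and every `d > 0`, the unit tangent vectors at `P`
towards the points of `C` at distance `d` from `P` add up to zero. -/
def IsBalanced {n : ℕ} (C : Set (Hyp n)) : Prop :=
  ∀ P ∈ C, ∀ d : ℝ, 0 < d → ∑ᶠ Q ∈ {Q | Q ∈ C ∧ rho P Q = d}, unitTangent P Q = 0

/-- A symmetry of `C`: an isometry `g` of hyperbolic space with `g(C) = C`. -/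
def IsSymmetry {n : ℕ} (C : Set (Hyp n)) (g : Hyp n ≃ Hyp n) : Prop :=
  (∀ x y, rho (g x) (g y) = rho x y) ∧ g '' C = C

/-- Group-balanced: every point `P` of `C` is the only fixed point of some symmetry of `C`. -/
def IsGroupBalanced {n : ℕ} (C : Set (Hyp n)) : Prop :=
  ∀ P ∈ C, ∃ g : Hyp n ≃ Hyp n, IsSymmetry C g ∧ {x | g x = x} = {P}

/-! ### Basic facts on the Lorentzian form -/

lemma lor_comm {n : ℕ} (x y : Fin (n + 1) → ℝ) : lor x y = lor y x := by
  unfold lor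
  rw [mul_comm (x 0) (y 0)]
  congr 1
  exact Finset.sum_congr rfl fun i _ => mul_comm _ _

lemma lor_add_left {n : ℕ} (x y z : Fin (n + 1) → ℝ) : lor (x + y) z = lor x z + lor y z := by
  unfold lor
  simp only [Pi.add_apply, add_mul, Finset.sum_add_distrib]
  ring

lemma lor_smul_left {n : ℕ} (c : ℝ) (x y : Fin (n + 1) → ℝ) :
    lor (c • x) y = c * lor x y := by
  unfold lor
  simp only [Pi.smul_apply, smul_eq_mul]
  rw [mul_add, Finset.mul_sum]
  congr 1
  · ring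
  · exact Finset.sum_congr rfl fun i _ => by ring

lemma lor_add_right {n : ℕ} (x y z : Fin (n + 1) → ℝ) : lor x (y + z) = lor x y + lor x z := by
  rw [lor_comm, lor_add_left, lor_comm y, lor_comm z]

lemma lor_smul_right {n : ℕ} (c : ℝ) (x y : Fin (n + 1) → ℝ) :
    lor x (c • y) = c * lor x y := by
  rw [lor_comm, lor_smul_left, lor_comm]

lemma lor_neg_left {n : ℕ} (x y : Fin (n + 1) → ℝ) : lor (-x) y = -lor x y := by
  have := lor_smul_left (-1 : ℝ) x y
  simpa using this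

lemma lor_sum_left {n : ℕ} {ι : Type*} (s : Finset ι) (f : ι → Fin (n + 1) → ℝ)
    (y : Fin (n + 1) → ℝ) : lor (∑ i ∈ s, f i) y = ∑ i ∈ s, lor (f i) y := by
  classical
  induction s using Finset.induction_on with
  | empty => simp [lor]
  | insert a s ha ih => rw [Finset.sum_insert ha, Finset.sum_insert ha, lor_add_left, ih]

/-- The spatial part of a point of the hyperboloid. -/
lemma spatial_sq {n : ℕ} (P : Hyp n) : ∑ i : Fin n, P.1 i.succ ^ 2 = P.1 0 ^ 2 - 1 := by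
  have h := P.2.1
  unfold lor at h
  have : ∑ i : Fin n, P.1 i.succ * P.1 i.succ = ∑ i : Fin n, P.1 i.succ ^ 2 :=
    Finset.sum_congr rfl fun i _ => by ring
  rw [this] at h
  linarith

lemma one_le_time {n : ℕ} (P : Hyp n) : 1 ≤ P.1 0 := by
  have h := spatial_sq P
  have h0 : 0 ≤ ∑ i : Fin n, P.1 i.succ ^ 2 := Finset.sum_nonneg fun i _ => sq_nonneg _
  have hp := P.2.2
  nlinarith

lemma cauchy {n : ℕ} (P Q : Hyp n) :
    (∑ i : Fin n, P.1 i.succ * Q.1 i.succ) ^ 2 ≤ (P.1 0 ^ 2 - 1) * (Q.1 0 ^ 2 - 1) := by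
  have h := Finset.sum_mul_sq_le_sq_mul_sq (Finset.univ : Finset (Fin n))
    (fun i => P.1 i.succ) (fun i => Q.1 i.succ)
  rw [spatial_sq P, spatial_sq Q] at h
  exact h

lemma one_le_neg_lor {n : ℕ} (P Q : Hyp n) : 1 ≤ -(lor P.1 Q.1) := by
  have hc := cauchy P Q
  have hp := one_le_time P
  have hq := one_le_time Q
  unfold lor
  set t := ∑ i : Fin n, P.1 i.succ * Q.1 i.succ with ht
  have h1 : t ^ 2 ≤ (P.1 0 * Q.1 0 - 1) ^ 2 := by
    nlinarith [sq_nonneg (P.1 0 - Q.1 0)]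
  have h2 : 0 ≤ P.1 0 * Q.1 0 - 1 := by nlinarith
  have h3 : t ≤ P.1 0 * Q.1 0 - 1 := le_of_abs_le (abs_le_of_sq_le_sq h1 h2)
  linarith

lemma cosh_rho {n : ℕ} (P Q : Hyp n) : Real.cosh (rho P Q) = -(lor P.1 Q.1) :=
  Real.cosh_arcosh (one_le_neg_lor P Q)

lemma rho_nonneg {n : ℕ} (P Q : Hyp n) : 0 ≤ rho P Q :=
  Real.arcosh_nonneg (one_le_neg_lor P Q)

lemma rho_eq_iff {n : ℕ} (P Q P' Q' : Hyp n) :
    rho P Q = rho P' Q' ↔ lor P.1 Q.1 = lor P'.1 Q'.1 := by
  constructor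
  · intro h
    have := congrArg Real.cosh h
    rw [cosh_rho, cosh_rho] at this
    linarith
  · intro h
    unfold rho
    rw [h]

/-- The time coordinate is controlled by the distance. -/
lemma time_le {n : ℕ} (P Q : Hyp n) : Q.1 0 ≤ 2 * P.1 0 * (-(lor P.1 Q.1)) := by
  have hc := cauchy P Q
  have hp := one_le_time P
  have hq := one_le_time Q
  unfold lor
  set t := ∑ i : Fin n, P.1 i.succ * Q.1 i.succ with ht
  set p := P.1 0 with hpdef
  set q := Q.1 0 with hqdef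
  have hpp : 1 ≤ p ^ 2 := by nlinarith
  have h1 : (2 * p * t) ^ 2 ≤ ((2 * p ^ 2 - 1) * q) ^ 2 := by
    have e1 : (2 * p * t) ^ 2 = 4 * p ^ 2 * t ^ 2 := by ring
    have e2 : 4 * p ^ 2 * t ^ 2 ≤ 4 * p ^ 2 * ((p ^ 2 - 1) * (q ^ 2 - 1)) :=
      mul_le_mul_of_nonneg_left hc (by positivity)
    have e3 : ((2 * p ^ 2 - 1) * q) ^ 2 - 4 * p ^ 2 * ((p ^ 2 - 1) * (q ^ 2 - 1))
        = q ^ 2 + 4 * p ^ 2 * (p ^ 2 - 1) := by ring
    have e4 : 0 ≤ 4 * p ^ 2 * (p ^ 2 - 1) := mul_nonneg (by positivity) (by linarith)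
    have e5 : 0 ≤ q ^ 2 := sq_nonneg q
    linarith
  have h2 : 0 ≤ (2 * p ^ 2 - 1) * q := mul_nonneg (by linarith) (by linarith)
  have h3 : 2 * p * t ≤ (2 * p ^ 2 - 1) * q := le_of_abs_le (abs_le_of_sq_le_sq h1 h2)
  nlinarith

/-- A vector of norm `-1` with negative product against a point of the hyperboloid
has positive time coordinate. -/
lemma time_pos {n : ℕ} (P : Hyp n) (x : Fin (n + 1) → ℝ) (hx : lor x x = -1)
    (hP : lor P.1 x < 0) : 0 < x 0 := by
  by_contra hneg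
  have h0 : x 0 ≠ 0 := by
    intro h0
    unfold lor at hx
    rw [h0] at hx
    have : 0 ≤ ∑ i : Fin n, x i.succ * x i.succ := Finset.sum_nonneg fun i _ => mul_self_nonneg _
    linarith
  have hlt : 0 < (-x) 0 := by
    have : x 0 < 0 := lt_of_le_of_ne (not_lt.mp hneg) h0
    simpa using this
  have hx' : lor (-x) (-x) = -1 := by
    rw [lor_neg_left, lor_comm, lor_neg_left, hx]
    ring
  have := one_le_neg_lor P ⟨-x, hx', hlt⟩
  simp only at this
  rw [lor_comm, lor_neg_left, lor_comm] at this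
  linarith


/-! ### The unit tangent vector is what it should be (not used below) -/

lemma rho_pos_of_ne {n : ℕ} (P Q : Hyp n) (h : Q ≠ P) : 0 < rho P Q := by
  rcases (rho_nonneg P Q).lt_or_eq with h0 | h0
  · exact h0
  exfalso
  apply h
  have h1 : lor P.1 Q.1 = -1 := by
    have := cosh_rho P Q
    rw [← h0, Real.cosh_zero] at this
    linarith
  -- `⟨Q - P, Q - P⟩ = 0`, with equality in Cauchy-Schwarz
  have hc := cauchy P Q
  have hp := one_le_time P
  have hq := one_le_time Q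
  have hP := P.2.1
  have hQ := Q.2.1
  have ht : ∑ i : Fin n, P.1 i.succ * Q.1 i.succ = P.1 0 * Q.1 0 - 1 := by
    unfold lor at h1
    linarith
  rw [ht] at hc
  have h0' : P.1 0 = Q.1 0 := by
    have : (P.1 0 - Q.1 0) ^ 2 ≤ 0 := by nlinarith
    have h3 : P.1 0 - Q.1 0 = 0 := by
      have := le_antisymm this (sq_nonneg _)
      exact pow_eq_zero_iff (two_ne_zero) |>.mp this
    linarith
  have hsum : ∑ i : Fin n, (Q.1 i.succ - P.1 i.succ) ^ 2 = 0 := by
    have e : ∑ i : Fin n, (Q.1 i.succ - P.1 i.succ) ^ 2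
        = ∑ i : Fin n, Q.1 i.succ ^ 2 + ∑ i : Fin n, P.1 i.succ ^ 2
          - 2 * ∑ i : Fin n, P.1 i.succ * Q.1 i.succ := by
      rw [Finset.mul_sum, ← Finset.sum_add_distrib, ← Finset.sum_sub_distrib]
      exact Finset.sum_congr rfl fun i _ => by ring
    rw [e, spatial_sq, spatial_sq, ht, h0']
    ring
  apply Subtype.ext
  funext i
  refine Fin.cases ?_ (fun j => ?_) i
  · exact h0'.symm
  · have := (Finset.sum_eq_zero_iff_of_nonneg (fun i _ => sq_nonneg _)).mp hsum j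
      (Finset.mem_univ j)
    have h4 : Q.1 j.succ - P.1 j.succ = 0 := pow_eq_zero_iff (two_ne_zero) |>.mp this
    linarith

/-- Sanity check: for `Q ≠ P` the vector `unitTangent P Q` is orthogonal to `P`, has norm one, and
the geodesic `t ↦ cosh t • P + sinh t • unitTangent P Q` reaches `Q` at time `ρ(P, Q)`. -/
lemma unitTangent_spec {n : ℕ} (P Q : Hyp n) (h : Q ≠ P) :
    lor P.1 (unitTangent P Q) = 0 ∧ lor (unitTangent P Q) (unitTangent P Q) = 1 ∧
      Q.1 = Real.cosh (rho P Q) • P.1 + Real.sinh (rho P Q) • unitTangent P Q := by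
  have hs : 0 < Real.sinh (rho P Q) := Real.sinh_pos_iff.mpr (rho_pos_of_ne P Q h)
  have hc := cosh_rho P Q
  have hsq := Real.cosh_sq (rho P Q)
  have hP := P.2.1
  have hQ := Q.2.1
  have e1 : lor P.1 (Q.1 - Real.cosh (rho P Q) • P.1) = 0 := by
    have : Q.1 - Real.cosh (rho P Q) • P.1 = Q.1 + (-Real.cosh (rho P Q)) • P.1 := by
      rw [neg_smul, sub_eq_add_neg]
    rw [this, lor_add_right, lor_smul_right, hP, hc]
    ring
  refine ⟨?_, ?_, ?_⟩
  · unfold unitTangent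
    rw [lor_smul_right, e1, mul_zero]
  · unfold unitTangent
    rw [lor_smul_right, lor_smul_left]
    have : lor (Q.1 - Real.cosh (rho P Q) • P.1) (Q.1 - Real.cosh (rho P Q) • P.1)
        = Real.sinh (rho P Q) ^ 2 := by
      have e2 : Q.1 - Real.cosh (rho P Q) • P.1 = Q.1 + (-Real.cosh (rho P Q)) • P.1 := by
        rw [neg_smul, sub_eq_add_neg]
      rw [e2, lor_add_left, lor_smul_left, ← e2, e1, e2, lor_add_right, lor_smul_right, hQ,
        lor_comm Q.1 P.1]
      have : lor P.1 Q.1 = -Real.cosh (rho P Q) := by linarith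
      rw [this]
      linarith
    rw [this]
    field_simp
  · unfold unitTangent
    rw [smul_smul, mul_inv_cancel₀ hs.ne', one_smul]
    abel


/-! ### Vectors of the plane and the configuration -/

/-- The vector `(x, y, z, 0, …, 0)`. -/
def vec (k : ℕ) (x y z : ℝ) : Fin (k + 2 + 1) → ℝ :=
  Matrix.vecCons x (Matrix.vecCons y (Matrix.vecCons z 0))

@[simp] lemma vec_zero (k : ℕ) (x y z : ℝ) : vec k x y z 0 = x := rfl

@[simp] lemma vec_one (k : ℕ) (x y z : ℝ) : vec k x y z (Fin.succ 0) = y := rfl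

@[simp] lemma vec_two (k : ℕ) (x y z : ℝ) : vec k x y z (Fin.succ (Fin.succ 0)) = z := rfl

lemma vec_add (k : ℕ) (x y z x' y' z' : ℝ) :
    vec k x y z + vec k x' y' z' = vec k (x + x') (y + y') (z + z') := by
  unfold vec
  simp

lemma vec_smul (k : ℕ) (c x y z : ℝ) : c • vec k x y z = vec k (c * x) (c * y) (c * z) := by
  unfold vec
  simp

lemma vec_inj {k : ℕ} {x y z x' y' z' : ℝ} (h : vec k x y z = vec k x' y' z') :
    x = x' ∧ y = y' ∧ z = z' := by
  exact ⟨congrFun h 0, congrFun h (Fin.succ 0), congrFun h (Fin.succ (Fin.succ 0))⟩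

lemma lor_vec (k : ℕ) (x y z x' y' z' : ℝ) :
    lor (vec k x y z) (vec k x' y' z') = -(x * x') + y * y' + z * z' := by
  unfold lor vec
  rw [Fin.sum_univ_succ, Fin.sum_univ_succ]
  simp only [Matrix.cons_val_zero, Matrix.cons_val_succ, Pi.zero_apply, mul_zero,
    Finset.sum_const_zero]
  ring

/-- The vector with integer parameters `m, a, b`: time coordinate `m` and spatial part
`√8 (a + b ω)`, where `ω = (-1 + √-3) / 2`. -/
noncomputable def pt (k : ℕ) (m a b : ℤ) : Fin (k + 2 + 1) → ℝ :=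
  vec k m (√2 * (2 * a - b)) (√6 * b)

lemma lor_pt (k : ℕ) (m a b m' a' b' : ℤ) :
    lor (pt k m a b) (pt k m' a' b')
      = ((-(m * m') + 4 * (2 * a * a' - a * b' - b * a' + 2 * b * b') : ℤ) : ℝ) := by
  unfold pt
  rw [lor_vec]
  have h2 : √2 * √2 = (2 : ℝ) := Real.mul_self_sqrt (by norm_num)
  have h6 : √6 * √6 = (6 : ℝ) := Real.mul_self_sqrt (by norm_num)
  push_cast
  linear_combination ((2 * (a : ℝ) - b) * (2 * a' - b')) * h2 + ((b : ℝ) * b') * h6

lemma pt_inj {k : ℕ} {m a b m' a' b' : ℤ} (h : pt k m a b = pt k m' a' b') :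
    m = m' ∧ a = a' ∧ b = b' := by
  unfold pt at h
  obtain ⟨h0, h1, h2⟩ := vec_inj h
  have s2 : (√2 : ℝ) ≠ 0 := by positivity
  have s6 : (√6 : ℝ) ≠ 0 := by positivity
  have hb : (b : ℝ) = b' := mul_left_cancel₀ s6 h2
  have ha' := mul_left_cancel₀ s2 h1
  have ha : (a : ℝ) = a' := by linarith
  exact ⟨by exact_mod_cast h0, by exact_mod_cast ha, by exact_mod_cast hb⟩

/-- The first family: `m ≡ 1 (mod 4)` and `b` even. -/
def famA (k : ℕ) : Set (Hyp (k + 2)) :=
  {Q | ∃ m a b : ℤ, Q.1 = pt k m a b ∧ m % 4 = 1 ∧ b % 2 = 0}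

/-- The second family: `m ≡ 3 (mod 12)` and `a + b ≡ 1 (mod 3)`. -/
def famB (k : ℕ) : Set (Hyp (k + 2)) :=
  {Q | ∃ m a b : ℤ, Q.1 = pt k m a b ∧ m % 12 = 3 ∧ (a + b) % 3 = 1}

/-- The norm equation in the integer parameters. -/
lemma norm_eq {k : ℕ} (Q : Hyp (k + 2)) {m a b : ℤ} (h : Q.1 = pt k m a b) :
    m ^ 2 = 1 + 8 * (a ^ 2 - a * b + b ^ 2) := by
  have h1 := Q.2.1
  rw [h, lor_pt] at h1
  have h2 : (-(m * m) + 4 * (2 * a * a - a * b - b * a + 2 * b * b) : ℤ) = -1 := by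
    exact_mod_cast h1
  linarith [h2]

lemma m_pos {k : ℕ} (Q : Hyp (k + 2)) {m a b : ℤ} (h : Q.1 = pt k m a b) : 0 < m := by
  have h1 := Q.2.2
  rw [h] at h1
  simpa [pt] using h1

lemma fam_params {k : ℕ} {Q : Hyp (k + 2)} (h : Q ∈ famA k ∪ famB k) :
    ∃ m a b : ℤ, Q.1 = pt k m a b := by
  rcases h with ⟨m, a, b, h, -⟩ | ⟨m, a, b, h, -⟩ <;> exact ⟨m, a, b, h⟩

/-! ### Discreteness -/

lemma discrete (k : ℕ) : IsDiscrete (famA k ∪ famB k) := by
  intro P r
  have hinj : Set.InjOn (fun Q : Hyp (k + 2) => Q.1)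
      {Q | Q ∈ famA k ∪ famB k ∧ rho P Q ≤ r} := fun x _ y _ h => Subtype.ext h
  refine Set.Finite.of_finite_image (f := fun Q : Hyp (k + 2) => Q.1) ?_ hinj
  set M : ℤ := ⌈2 * P.1 0 * Real.cosh r⌉ with hM
  refine Set.Finite.subset
    (Set.Finite.image (fun t : ℤ × ℤ × ℤ => pt k t.1 t.2.1 t.2.2)
      ((Set.finite_Icc (-M) M).prod ((Set.finite_Icc (-M) M).prod (Set.finite_Icc (-M) M)))) ?_
  rintro x ⟨Q, ⟨hQ, hr⟩, rfl⟩
  obtain ⟨m, a, b, h⟩ := fam_params hQ
  have hn := norm_eq Q h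
  have hm := m_pos Q h
  have hle : (m : ℝ) ≤ 2 * P.1 0 * Real.cosh r := by
    have h1 := time_le P Q
    rw [← cosh_rho] at h1
    have h2 : Real.cosh (rho P Q) ≤ Real.cosh r := by
      rw [Real.cosh_le_cosh, abs_of_nonneg (rho_nonneg P Q)]
      exact hr.trans (le_abs_self r)
    have h3 : Q.1 0 = (m : ℝ) := by rw [h]; simp [pt]
    rw [h3] at h1
    have hp := P.2.2
    calc (m : ℝ) ≤ 2 * P.1 0 * Real.cosh (rho P Q) := h1
      _ ≤ 2 * P.1 0 * Real.cosh r := mul_le_mul_of_nonneg_left h2 (by linarith)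
  have hmM : m ≤ M := by
    have : (m : ℝ) ≤ (M : ℝ) := hle.trans (Int.le_ceil _)
    exact_mod_cast this
  have ha2 : a ^ 2 ≤ m ^ 2 := by nlinarith [sq_nonneg (a - 2 * b), sq_nonneg a]
  have hb2 : b ^ 2 ≤ m ^ 2 := by nlinarith [sq_nonneg (2 * a - b), sq_nonneg b]
  have ha := abs_le.mp (abs_le_of_sq_le_sq ha2 hm.le)
  have hb := abs_le.mp (abs_le_of_sq_le_sq hb2 hm.le)
  refine ⟨(m, a, b), ⟨⟨?_, hmM⟩, ⟨?_, ?_⟩, ⟨?_, ?_⟩⟩, h.symm⟩
  all_goals simp only
  all_goals omega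


/-! ### Point reflections preserve the first family -/

/-- The reflection of `Q` in the point `P`. -/
def reflH {n : ℕ} (P Q : Hyp n) : Hyp n :=
  ⟨-Q.1 + (-(2 * lor P.1 Q.1)) • P.1, by
    have hP := P.2.1
    have hQ := Q.2.1
    have h1 : lor (-Q.1 + (-(2 * lor P.1 Q.1)) • P.1) (-Q.1 + (-(2 * lor P.1 Q.1)) • P.1) = -1 := by
      have e : -Q.1 = (-1 : ℝ) • Q.1 := by simp
      rw [e]
      simp only [lor_add_left, lor_add_right, lor_smul_left, lor_smul_right, hP, hQ,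
        lor_comm Q.1 P.1]
      ring
    refine ⟨h1, time_pos P _ h1 ?_⟩
    have e : -Q.1 = (-1 : ℝ) • Q.1 := by simp
    rw [e, lor_add_right, lor_smul_right, lor_smul_right, hP]
    have := one_le_neg_lor P Q
    linarith⟩

lemma reflH_val {n : ℕ} (P Q : Hyp n) :
    (reflH P Q).1 = -Q.1 + (-(2 * lor P.1 Q.1)) • P.1 := rfl

lemma lor_reflH {n : ℕ} (P Q : Hyp n) : lor P.1 (reflH P Q).1 = lor P.1 Q.1 := by
  have e : -Q.1 = (-1 : ℝ) • Q.1 := by simp
  rw [reflH_val, e, lor_add_right, lor_smul_right, lor_smul_right, P.2.1]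
  ring

lemma rho_reflH {n : ℕ} (P Q : Hyp n) : rho P (reflH P Q) = rho P Q :=
  (rho_eq_iff _ _ _ _).mpr (lor_reflH P Q)

lemma reflH_reflH {n : ℕ} (P Q : Hyp n) : reflH P (reflH P Q) = Q := by
  apply Subtype.ext
  rw [reflH_val, lor_reflH, reflH_val]
  funext i
  simp only [Pi.add_apply, Pi.neg_apply, Pi.smul_apply, smul_eq_mul]
  ring

lemma unitTangent_reflH {n : ℕ} (P Q : Hyp n) :
    unitTangent P Q + unitTangent P (reflH P Q) = 0 := by
  unfold unitTangent
  rw [rho_reflH, ← smul_add, reflH_val, cosh_rho]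
  have : Q.1 - -lor P.1 Q.1 • P.1 + (-Q.1 + -(2 * lor P.1 Q.1) • P.1 - -lor P.1 Q.1 • P.1) = 0 := by
    funext i
    simp only [Pi.add_apply, Pi.sub_apply, Pi.neg_apply, Pi.smul_apply, smul_eq_mul, Pi.zero_apply]
    ring
  rw [this, smul_zero]

lemma reflH_mem {k : ℕ} {P Q : Hyp (k + 2)} {p c e : ℤ} (hP : P.1 = pt k p c e)
    (hQ : Q ∈ famA k) : reflH P Q ∈ famA k := by
  obtain ⟨m, a, b, h, hm, hb⟩ := hQ
  have hn := norm_eq P hP
  set j : ℤ := 2 * c * a - c * b - e * a + 2 * e * b with hj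
  refine ⟨m + 4 * (4 * m * (c ^ 2 - c * e + e ^ 2) - 2 * j * p),
    -a + 2 * (p * m - 4 * j) * c, -b + 2 * (p * m - 4 * j) * e, ?_, ?_, ?_⟩
  · rw [reflH_val, hP, h, lor_pt]
    unfold pt
    have e1 : -vec k (m : ℝ) (√2 * (2 * a - b)) (√6 * b)
        = (-1 : ℝ) • vec k (m : ℝ) (√2 * (2 * a - b)) (√6 * b) := by simp
    rw [e1, vec_smul, vec_smul, vec_add]
    have hn' : (p : ℝ) ^ 2 = 1 + 8 * ((c : ℝ) ^ 2 - c * e + e ^ 2) := by exact_mod_cast hn
    congr 1
    · push_cast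
      rw [hj]
      push_cast
      linear_combination 2 * (m : ℝ) * hn'
    · push_cast
      rw [hj]
      push_cast
      ring
    · push_cast
      rw [hj]
      push_cast
      ring
  · omega
  · have : (2 * (p * m - 4 * j) * e) % 2 = 0 := by
      rw [mul_assoc]
      exact Int.mul_emod_right _ _
    omega

lemma sum_famA {k : ℕ} {P : Hyp (k + 2)} {p c e : ℤ} (hP : P.1 = pt k p c e) (d : ℝ)
    (s : Finset (Hyp (k + 2))) (hs : ∀ Q, Q ∈ s ↔ Q ∈ famA k ∧ rho P Q = d) :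
    ∑ Q ∈ s, unitTangent P Q = 0 := by
  refine Finset.sum_involution (fun Q _ => reflH P Q) (fun Q _ => unitTangent_reflH P Q) ?_ ?_
    (fun Q _ => reflH_reflH P Q)
  · intro Q _ hne heq
    apply hne
    have h := unitTangent_reflH P Q
    rw [heq] at h
    funext i
    have := congrFun h i
    simp only [Pi.add_apply, Pi.zero_apply] at this ⊢
    linarith
  · intro Q hQ
    rw [hs] at hQ ⊢
    exact ⟨reflH_mem hP hQ.1, by rw [rho_reflH]; exact hQ.2⟩

/-! ### Rotations of order three preserve the second family -/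

/-- The rotation by a third of a turn about `P`, on vectors of the plane. -/
noncomputable def rotV (k : ℕ) (P x : Fin (k + 2 + 1) → ℝ) : Fin (k + 2 + 1) → ℝ :=
  vec k
    (-(1 / 2) * x 0
      - 3 / 2 * (-(P 0 * x 0) + P (Fin.succ 0) * x (Fin.succ 0)
        + P (Fin.succ (Fin.succ 0)) * x (Fin.succ (Fin.succ 0))) * P 0
      + √3 / 2 * (P (Fin.succ 0) * x (Fin.succ (Fin.succ 0))
        - P (Fin.succ (Fin.succ 0)) * x (Fin.succ 0)))
    (-(1 / 2) * x (Fin.succ 0)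
      - 3 / 2 * (-(P 0 * x 0) + P (Fin.succ 0) * x (Fin.succ 0)
        + P (Fin.succ (Fin.succ 0)) * x (Fin.succ (Fin.succ 0))) * P (Fin.succ 0)
      + √3 / 2 * (P 0 * x (Fin.succ (Fin.succ 0)) - x 0 * P (Fin.succ (Fin.succ 0))))
    (-(1 / 2) * x (Fin.succ (Fin.succ 0))
      - 3 / 2 * (-(P 0 * x 0) + P (Fin.succ 0) * x (Fin.succ 0)
        + P (Fin.succ (Fin.succ 0)) * x (Fin.succ (Fin.succ 0))) * P (Fin.succ (Fin.succ 0))
      + √3 / 2 * (x 0 * P (Fin.succ 0) - P 0 * x (Fin.succ 0)))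

lemma rotV_add (k : ℕ) (P x y : Fin (k + 2 + 1) → ℝ) :
    rotV k P (x + y) = rotV k P x + rotV k P y := by
  unfold rotV
  rw [vec_add]
  simp only [Pi.add_apply]
  congr 1 <;> ring

lemma rotV_zero (k : ℕ) (P : Fin (k + 2 + 1) → ℝ) : rotV k P 0 = 0 := by
  have h := rotV_add k P 0 0
  rw [add_zero] at h
  exact (left_eq_add.mp h)

lemma rotV_sum (k : ℕ) (P : Fin (k + 2 + 1) → ℝ) (s : Finset (Fin (k + 2 + 1) → ℝ)) :
    rotV k P (∑ x ∈ s, x) = ∑ x ∈ s, rotV k P x := by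
  classical
  induction s using Finset.induction_on with
  | empty => simp [rotV_zero]
  | insert a s ha ih => rw [Finset.sum_insert ha, Finset.sum_insert ha, rotV_add, ih]

lemma rotV_vec (k : ℕ) (p q r x y z : ℝ) :
    rotV k (vec k p q r) (vec k x y z) = vec k
      (-(1 / 2) * x - 3 / 2 * (-(p * x) + q * y + r * z) * p + √3 / 2 * (q * z - r * y))
      (-(1 / 2) * y - 3 / 2 * (-(p * x) + q * y + r * z) * q + √3 / 2 * (p * z - x * r))
      (-(1 / 2) * z - 3 / 2 * (-(p * x) + q * y + r * z) * r + √3 / 2 * (x * q - p * y)) := by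
  unfold rotV
  rfl

lemma sqrt3_sq : √3 * √3 = (3 : ℝ) := Real.mul_self_sqrt (by norm_num)

lemma lor_rotV_right (k : ℕ) (p q r x y z : ℝ) (hP : -(p * p) + q * q + r * r = -1) :
    lor (vec k p q r) (rotV k (vec k p q r) (vec k x y z)) = lor (vec k p q r) (vec k x y z) := by
  rw [rotV_vec, lor_vec, lor_vec]
  linear_combination (-3 / 2 * (-(p * x) + q * y + r * z)) * hP

lemma lor_rotV_self (k : ℕ) (p q r x y z : ℝ) (hP : -(p * p) + q * q + r * r = -1) :
    lor (rotV k (vec k p q r) (vec k x y z)) (rotV k (vec k p q r) (vec k x y z))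
      = lor (vec k x y z) (vec k x y z) := by
  rw [rotV_vec, lor_vec, lor_vec]
  linear_combination
    (((-(p * x) + q * y + r * z) ^ 2
      - (-(p * p) + q * q + r * r) * (-(x * x) + y * y + z * z)) / 4) * sqrt3_sq
    + (9 / 4 * (-(p * x) + q * y + r * z) ^ 2 - 3 / 4 * (-(x * x) + y * y + z * z)) * hP

lemma rotV_orbit (k : ℕ) (p q r x y z : ℝ) (hP : -(p * p) + q * q + r * r = -1) :
    vec k x y z + rotV k (vec k p q r) (vec k x y z)
      + rotV k (vec k p q r) (rotV k (vec k p q r) (vec k x y z))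
      = (-(3 * lor (vec k p q r) (vec k x y z))) • vec k p q r := by
  rw [rotV_vec, rotV_vec, lor_vec, vec_add, vec_add, vec_smul]
  congr 1
  · linear_combination
      (x * (-(p * p) + q * q + r * r) / 4 - (-(p * x) + q * y + r * z) * p / 4) * sqrt3_sq
      + (3 / 4 * x + 9 / 4 * (-(p * x) + q * y + r * z) * p) * hP
  · linear_combination
      (y * (-(p * p) + q * q + r * r) / 4 - (-(p * x) + q * y + r * z) * q / 4) * sqrt3_sq
      + (3 / 4 * y + 9 / 4 * (-(p * x) + q * y + r * z) * q) * hP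
  · linear_combination
      (z * (-(p * p) + q * q + r * r) / 4 - (-(p * x) + q * y + r * z) * r / 4) * sqrt3_sq
      + (3 / 4 * z + 9 / 4 * (-(p * x) + q * y + r * z) * r) * hP

lemma rotV_cube (k : ℕ) (p q r x y z : ℝ) (hP : -(p * p) + q * q + r * r = -1) :
    rotV k (vec k p q r) (rotV k (vec k p q r) (rotV k (vec k p q r) (vec k x y z)))
      = vec k x y z := by
  have h1 := rotV_orbit k p q r x y z hP
  have h2 := lor_rotV_right k p q r x y z hP
  have h3 := rotV_orbit k p q r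
    (-(1 / 2) * x - 3 / 2 * (-(p * x) + q * y + r * z) * p + √3 / 2 * (q * z - r * y))
    (-(1 / 2) * y - 3 / 2 * (-(p * x) + q * y + r * z) * q + √3 / 2 * (p * z - x * r))
    (-(1 / 2) * z - 3 / 2 * (-(p * x) + q * y + r * z) * r + √3 / 2 * (x * q - p * y)) hP
  rw [← rotV_vec k p q r x y z, h2, ← h1] at h3
  generalize rotV k (vec k p q r) (rotV k (vec k p q r) (rotV k (vec k p q r) (vec k x y z))) = t
    at h3 ⊢
  generalize rotV k (vec k p q r) (rotV k (vec k p q r) (vec k x y z)) = w at h3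
  generalize rotV k (vec k p q r) (vec k x y z) = v at h3
  funext i
  have := congrFun h3 i
  simp only [Pi.add_apply] at this
  linarith


lemma sqrt6_eq : √6 = √2 * (√3 : ℝ) := by
  rw [← Real.sqrt_mul (by norm_num)]
  norm_num

/-- The rotation acts on the integer parameters. -/
lemma rotV_pt (k : ℕ) (s c e m a b : ℤ)
    (hn : (2 * s + 1) ^ 2 = 1 + 8 * (c ^ 2 - c * e + e ^ 2)) :
    rotV k (pt k (2 * s + 1) c e) (pt k m a b)
      = pt k (m * (1 + 12 * (c ^ 2 - c * e + e ^ 2))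
            - 6 * (2 * a * c - a * e - b * c + 2 * b * e) * (2 * s + 1) + 6 * (c * b - e * a))
          (-(s + 1) * a + (2 * s + 1) * b + m * (c * (3 * s + 2) - e)
            - 6 * (2 * a * c - a * e - b * c + 2 * b * e) * c)
          (s * b - (2 * s + 1) * a + m * (c + e * (3 * s + 1))
            - 6 * (2 * a * c - a * e - b * c + 2 * b * e) * e) := by
  have hn' : (2 * (s : ℝ) + 1) ^ 2 = 1 + 8 * ((c : ℝ) ^ 2 - c * e + e ^ 2) := by exact_mod_cast hn
  unfold pt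
  rw [rotV_vec, sqrt6_eq]
  have h2 : √2 * √2 = (2 : ℝ) := Real.mul_self_sqrt (by norm_num)
  have h3 := sqrt3_sq
  have hl : -(((2 * s + 1 : ℤ) : ℝ) * (m : ℝ)) + √2 * (2 * c - e) * (√2 * (2 * a - b))
      + √2 * √3 * e * (√2 * √3 * b)
      = -((2 * s + 1) * m) + 4 * (2 * a * c - a * e - b * c + 2 * b * e) := by
    push_cast
    linear_combination ((2 * (c : ℝ) - e) * (2 * a - b) + √3 * √3 * e * b) * h2
      + 2 * (e : ℝ) * b * h3
  rw [hl]
  congr 1
  · push_cast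
    linear_combination ((c : ℝ) * b - e * a) * (√3 * √3) * h2 + 2 * ((c : ℝ) * b - e * a) * h3
      + 3 / 2 * (m : ℝ) * hn'
  · push_cast
    linear_combination (√2 / 2 * ((2 * (s : ℝ) + 1) * b - m * e)) * h3
  · push_cast
    ring

lemma rot_mem {k : ℕ} {P : Hyp (k + 2)} {s c e : ℤ} (hP : P.1 = pt k (2 * s + 1) c e)
    {Q : Hyp (k + 2)} (hQ : Q ∈ famB k) :
    ∃ Q' : Hyp (k + 2), Q' ∈ famB k ∧ rho P Q' = rho P Q ∧ Q'.1 = rotV k P.1 Q.1 := by
  obtain ⟨m, a, b, h, hm, hab⟩ := hQ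
  have hn := norm_eq P hP
  have hPP : -((((2 * s + 1 : ℤ) : ℝ)) * (((2 * s + 1 : ℤ) : ℝ)))
      + (√2 * (2 * c - e)) * (√2 * (2 * c - e)) + (√6 * e) * (√6 * e) = (-1 : ℝ) := by
    have h1 := P.2.1
    rw [hP] at h1
    unfold pt at h1
    rwa [lor_vec] at h1
  have hself : lor (rotV k P.1 Q.1) (rotV k P.1 Q.1) = -1 := by
    have := lor_rotV_self k _ _ _ (m : ℝ) (√2 * (2 * a - b)) (√6 * b) hPP
    have hQQ := Q.2.1
    rw [hP, h] at *
    unfold pt at *
    rw [this]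
    exact hQQ
  have hr : lor P.1 (rotV k P.1 Q.1) = lor P.1 Q.1 := by
    have := lor_rotV_right k _ _ _ (m : ℝ) (√2 * (2 * a - b)) (√6 * b) hPP
    rw [hP, h]
    unfold pt
    exact this
  have hneg : lor P.1 (rotV k P.1 Q.1) < 0 := by
    rw [hr]
    have := one_le_neg_lor P Q
    linarith
  refine ⟨⟨rotV k P.1 Q.1, hself, time_pos P _ hself hneg⟩, ?_, ?_, rfl⟩
  · have hrot := rotV_pt k s c e m a b hn
    rw [← hP, ← h] at hrot
    refine ⟨_, _, _, hrot, ?_, ?_⟩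
    · -- the time coordinate modulo 12
      have e1 : m * (1 + 12 * (c ^ 2 - c * e + e ^ 2))
            - 6 * (2 * a * c - a * e - b * c + 2 * b * e) * (2 * s + 1) + 6 * (c * b - e * a)
          = m + 12 * (m * (c ^ 2 - c * e + e ^ 2)
            - (2 * a * c - a * e - b * c + 2 * b * e) * s
            - (a * c - b * c + b * e)) := by ring
      rw [e1]
      omega
    · have e2 : -(s + 1) * a + (2 * s + 1) * b + m * (c * (3 * s + 2) - e)
            - 6 * (2 * a * c - a * e - b * c + 2 * b * e) * c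
            + (s * b - (2 * s + 1) * a + m * (c + e * (3 * s + 1))
            - 6 * (2 * a * c - a * e - b * c + 2 * b * e) * e)
          = (a + b) + m * (c * (3 * s + 3) + e * (3 * s))
            + 3 * (-(s * a) - a + s * b
              - 2 * (2 * a * c - a * e - b * c + 2 * b * e) * (c + e)) := by ring
      rw [e2]
      obtain ⟨m', hm'⟩ : ∃ m', m = 3 * m' := ⟨m / 3, by omega⟩
      have e3 : m * (c * (3 * s + 3) + e * (3 * s)) = 3 * (m' * (c * (3 * s + 3) + e * (3 * s))) := by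
        rw [hm']; ring
      rw [e3]
      omega
  · exact (rho_eq_iff _ _ _ _).mpr hr


lemma odd_of_norm {k : ℕ} (P : Hyp (k + 2)) {p c e : ℤ} (hP : P.1 = pt k p c e) :
    ∃ s : ℤ, p = 2 * s + 1 := by
  have hn := norm_eq P hP
  have hodd : Odd (p ^ 2) := ⟨4 * (c ^ 2 - c * e + e ^ 2), by rw [hn]; ring⟩
  obtain ⟨s, hs⟩ := Int.Odd.of_mul_left (by rwa [pow_two] at hodd : Odd (p * p))
  exact ⟨s, hs⟩

lemma sum_famB {k : ℕ} {P : Hyp (k + 2)} {p c e : ℤ} (hP : P.1 = pt k p c e) (d : ℝ)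
    (s : Finset (Hyp (k + 2))) (hs : ∀ Q, Q ∈ s ↔ Q ∈ famB k ∧ rho P Q = d) :
    ∑ Q ∈ s, unitTangent P Q = 0 := by
  classical
  obtain ⟨r, rfl⟩ := odd_of_norm P hP
  have hPP : -((((2 * r + 1 : ℤ) : ℝ)) * (((2 * r + 1 : ℤ) : ℝ)))
      + (√2 * (2 * c - e)) * (√2 * (2 * c - e)) + (√6 * e) * (√6 * e) = (-1 : ℝ) := by
    have h1 := P.2.1
    rw [hP] at h1
    unfold pt at h1
    rwa [lor_vec] at h1
  -- the finite set of vectors
  set t : Finset (Fin (k + 2 + 1) → ℝ) := s.image (fun Q => Q.1) with ht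
  have hinj : Set.InjOn (fun Q : Hyp (k + 2) => Q.1) s := fun x _ y _ h => Subtype.ext h
  have hrot : ∀ x ∈ t, rotV k P.1 x ∈ t := by
    intro x hx
    rw [ht, Finset.mem_image] at hx ⊢
    obtain ⟨Q, hQ, rfl⟩ := hx
    rw [hs] at hQ
    obtain ⟨Q', h1, h2, h3⟩ := rot_mem hP hQ.1
    exact ⟨Q', (hs Q').mpr ⟨h1, h2.trans hQ.2⟩, h3⟩
  have hplane : ∀ x ∈ t, ∃ m a b : ℤ, x = pt k m a b ∧ lor P.1 x = -Real.cosh d := by
    intro x hx
    rw [ht, Finset.mem_image] at hx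
    obtain ⟨Q, hQ, rfl⟩ := hx
    rw [hs] at hQ
    obtain ⟨⟨m, a, b, h, -⟩, hd⟩ := hQ
    refine ⟨m, a, b, h, ?_⟩
    rw [← hd, cosh_rho]
    ring
  have hcube : ∀ x ∈ t, rotV k P.1 (rotV k P.1 (rotV k P.1 x)) = x := by
    intro x hx
    obtain ⟨m, a, b, rfl, -⟩ := hplane x hx
    rw [hP]
    exact rotV_cube k _ _ _ _ _ _ hPP
  have horb : ∀ x ∈ t, x + rotV k P.1 x + rotV k P.1 (rotV k P.1 x)
      = (3 * Real.cosh d) • P.1 := by
    intro x hx
    obtain ⟨m, a, b, rfl, hl⟩ := hplane x hx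
    have := rotV_orbit k _ _ _ (m : ℝ) (√2 * (2 * a - b)) (√6 * b) hPP
    have e1 : 3 * Real.cosh d = -(3 * lor P.1 (pt k m a b)) := by rw [hl]; ring
    rw [e1, hP]
    exact this
  have hsum1 : ∑ x ∈ t, rotV k P.1 x = ∑ x ∈ t, x := by
    refine Finset.sum_nbij' (fun x => rotV k P.1 x) (fun x => rotV k P.1 (rotV k P.1 x))
      hrot (fun x hx => hrot _ (hrot _ hx)) ?_ ?_ (fun x _ => rfl)
    · intro x hx
      exact hcube x hx
    · intro x hx
      exact hcube x hx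
  have hfix : rotV k P.1 (∑ x ∈ t, x) = ∑ x ∈ t, x := by
    rw [rotV_sum, hsum1]
  have hsum2 : ∑ x ∈ t, rotV k P.1 (rotV k P.1 x) = ∑ x ∈ t, x := by
    have h1 : ∑ x ∈ t, rotV k P.1 (rotV k P.1 x) = ∑ x ∈ t, rotV k P.1 x :=
      Finset.sum_nbij' (fun x => rotV k P.1 x) (fun x => rotV k P.1 (rotV k P.1 x))
        hrot (fun x hx => hrot _ (hrot _ hx)) (fun x hx => hcube x hx) (fun x hx => hcube x hx)
        (fun x _ => rfl)
    rw [h1, hsum1]
  have htot : (3 : ℝ) • ∑ x ∈ t, x = (3 * (t.card * Real.cosh d)) • P.1 := by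
    have h1 : ∑ x ∈ t, (x + rotV k P.1 x + rotV k P.1 (rotV k P.1 x))
        = ∑ x ∈ t, (3 * Real.cosh d) • P.1 := Finset.sum_congr rfl horb
    rw [Finset.sum_add_distrib, Finset.sum_add_distrib, hsum1, hsum2, Finset.sum_const,
      ← Nat.cast_smul_eq_nsmul ℝ, smul_smul] at h1
    have h2 : (3 : ℝ) • ∑ x ∈ t, x = ∑ x ∈ t, x + ∑ x ∈ t, x + ∑ x ∈ t, x := by
      rw [show (3 : ℝ) = 1 + 1 + 1 by norm_num, add_smul, add_smul, one_smul]
    rw [h2, h1]
    congr 1
    ring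
  have htot' : ∑ x ∈ t, x = (t.card * Real.cosh d) • P.1 := by
    rw [mul_smul] at htot
    exact smul_right_injective _ (by norm_num : (3 : ℝ) ≠ 0) htot
  have hcard : t.card = s.card := Finset.card_image_of_injOn hinj
  have hsumQ : ∑ Q ∈ s, Q.1 = (s.card * Real.cosh d) • P.1 := by
    rw [← hcard, ← htot', ht, Finset.sum_image hinj]
  have hu : ∑ Q ∈ s, unitTangent P Q
      = ∑ Q ∈ s, (Real.sinh d)⁻¹ • (Q.1 - Real.cosh d • P.1) := by
    refine Finset.sum_congr rfl fun Q hQ => ?_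
    rw [hs] at hQ
    unfold unitTangent
    rw [hQ.2]
  rw [hu, ← Finset.smul_sum, Finset.sum_sub_distrib, hsumQ, Finset.sum_const,
    ← Nat.cast_smul_eq_nsmul ℝ, smul_smul, sub_self, smul_zero]

/-! ### The configuration is balanced -/

lemma fam_disjoint (k : ℕ) : Disjoint (famA k) (famB k) := by
  rw [Set.disjoint_left]
  rintro Q ⟨m, a, b, h, hm, -⟩ ⟨m', a', b', h', hm', -⟩
  rw [h] at h'
  obtain ⟨rfl, -, -⟩ := pt_inj h'
  omega

lemma balanced (k : ℕ) : IsBalanced (famA k ∪ famB k) := by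
  classical
  intro P hPmem d _
  obtain ⟨p, c, e, hP⟩ := fam_params hPmem
  have hfin : {Q | Q ∈ famA k ∪ famB k ∧ rho P Q = d}.Finite :=
    (discrete k P d).subset fun Q hQ => ⟨hQ.1, hQ.2.le⟩
  have hfA : {Q | Q ∈ famA k ∧ rho P Q = d}.Finite :=
    hfin.subset fun Q hQ => ⟨Or.inl hQ.1, hQ.2⟩
  have hfB : {Q | Q ∈ famB k ∧ rho P Q = d}.Finite :=
    hfin.subset fun Q hQ => ⟨Or.inr hQ.1, hQ.2⟩
  have hunion : {Q | Q ∈ famA k ∪ famB k ∧ rho P Q = d}
      = {Q | Q ∈ famA k ∧ rho P Q = d} ∪ {Q | Q ∈ famB k ∧ rho P Q = d} := by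
    ext Q
    simp only [Set.mem_ofPred_eq, Set.mem_union]
    tauto
  have hdisj : Disjoint {Q | Q ∈ famA k ∧ rho P Q = d} {Q | Q ∈ famB k ∧ rho P Q = d} := by
    refine Set.disjoint_of_subset ?_ ?_ (fam_disjoint k)
    · exact fun Q hQ => hQ.1
    · exact fun Q hQ => hQ.1
  rw [hunion, finsum_mem_union hdisj hfA hfB, finsum_mem_eq_finite_toFinset_sum _ hfA,
    finsum_mem_eq_finite_toFinset_sum _ hfB,
    sum_famA hP d hfA.toFinset (fun Q => by simp), sum_famB hP d hfB.toFinset (fun Q => by simp),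
    add_zero]

/-! ### The configuration is not group-balanced -/

/-- A point of the hyperboloid from integer parameters. -/
noncomputable def mk (k : ℕ) (m a b : ℤ) (h : m ^ 2 = 1 + 8 * (a ^ 2 - a * b + b ^ 2))
    (hm : 0 < m) : Hyp (k + 2) :=
  ⟨pt k m a b, by
    rw [lor_pt]
    have : (-(m * m) + 4 * (2 * a * a - a * b - b * a + 2 * b * b) : ℤ) = -1 := by
      linear_combination -h
    rw [this]
    norm_num, by
    have : (0 : ℝ) < m := by exact_mod_cast hm
    simpa [pt] using this⟩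

lemma mk_val (k : ℕ) (m a b : ℤ) (h : m ^ 2 = 1 + 8 * (a ^ 2 - a * b + b ^ 2)) (hm : 0 < m) :
    (mk k m a b h hm).1 = pt k m a b := rfl

/-- Points of the configuration with time coordinate `3`. -/
lemma shell3 {k : ℕ} {Q : Hyp (k + 2)} (hQ : Q ∈ famA k ∪ famB k)
    (hl : lor (pt k 1 0 0) Q.1 = -3) :
    Q.1 = pt k 3 1 0 ∨ Q.1 = pt k 3 0 1 ∨ Q.1 = pt k 3 (-1) (-1) := by
  rcases hQ with ⟨m, a, b, h, hm, hb⟩ | ⟨m, a, b, h, hm, hab⟩
  · exfalso
    rw [h, lor_pt] at hl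
    have : (-(1 * m) + 4 * (2 * 0 * a - 0 * b - 0 * a + 2 * 0 * b) : ℤ) = -3 := by
      exact_mod_cast hl
    omega
  · have hn := norm_eq Q h
    rw [h, lor_pt] at hl
    have h3 : (-(1 * m) + 4 * (2 * 0 * a - 0 * b - 0 * a + 2 * 0 * b) : ℤ) = -3 := by
      exact_mod_cast hl
    have hm3 : m = 3 := by omega
    subst hm3
    have hn' : a ^ 2 - a * b + b ^ 2 = 1 := by linarith
    have ha : a ^ 2 ≤ 1 := by nlinarith [sq_nonneg (a - 2 * b), sq_nonneg a]
    have hb : b ^ 2 ≤ 1 := by nlinarith [sq_nonneg (2 * a - b), sq_nonneg b]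
    have ha' : -1 ≤ a ∧ a ≤ 1 := by constructor <;> nlinarith
    have hb' : -1 ≤ b ∧ b ≤ 1 := by constructor <;> nlinarith
    obtain ⟨ha1, ha2⟩ := ha'
    obtain ⟨hb1, hb2⟩ := hb'
    rw [h]
    interval_cases a <;> interval_cases b <;> simp_all

/-- Points of the configuration with time coordinate `5`. -/
lemma shell5 {k : ℕ} {Q : Hyp (k + 2)} (hQ : Q ∈ famA k ∪ famB k)
    (hl : lor (pt k 1 0 0) Q.1 = -5) :
    Q.1 = pt k 5 1 2 ∨ Q.1 = pt k 5 (-1) (-2) := by
  rcases hQ with ⟨m, a, b, h, hm, hb⟩ | ⟨m, a, b, h, hm, hab⟩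
  · have hn := norm_eq Q h
    rw [h, lor_pt] at hl
    have h3 : (-(1 * m) + 4 * (2 * 0 * a - 0 * b - 0 * a + 2 * 0 * b) : ℤ) = -5 := by
      exact_mod_cast hl
    have hm3 : m = 5 := by omega
    subst hm3
    have hn' : a ^ 2 - a * b + b ^ 2 = 3 := by linarith
    have ha : a ^ 2 ≤ 4 := by nlinarith [sq_nonneg (a - 2 * b), sq_nonneg a]
    have hb0 : b ^ 2 ≤ 4 := by nlinarith [sq_nonneg (2 * a - b), sq_nonneg b]
    have ha' : -2 ≤ a ∧ a ≤ 2 := by constructor <;> nlinarith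
    have hb' : -2 ≤ b ∧ b ≤ 2 := by constructor <;> nlinarith
    obtain ⟨ha1, ha2⟩ := ha'
    obtain ⟨hb1, hb2⟩ := hb'
    rw [h]
    interval_cases a <;> interval_cases b <;> simp_all
  · exfalso
    rw [h, lor_pt] at hl
    have : (-(1 * m) + 4 * (2 * 0 * a - 0 * b - 0 * a + 2 * 0 * b) : ℤ) = -5 := by
      exact_mod_cast hl
    omega


/-- Every symmetry of the configuration that fixes the point `(1, 0)` also fixes a second point
of the configuration. -/
lemma rigid (k : ℕ) : ∃ P ∈ famA k ∪ famB k, ∃ Q ∈ famA k ∪ famB k, Q ≠ P ∧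
    ∀ g : Hyp (k + 2) ≃ Hyp (k + 2), IsSymmetry (famA k ∪ famB k) g → g P = P → g Q = Q := by
  obtain ⟨O, hO⟩ : ∃ O : Hyp (k + 2), O.1 = pt k 1 0 0 :=
    ⟨mk k 1 0 0 (by norm_num) (by norm_num), rfl⟩
  obtain ⟨A, hA⟩ : ∃ A : Hyp (k + 2), A.1 = pt k 3 1 0 :=
    ⟨mk k 3 1 0 (by norm_num) (by norm_num), rfl⟩
  obtain ⟨U, hU⟩ : ∃ U : Hyp (k + 2), U.1 = pt k 5 1 2 :=
    ⟨mk k 5 1 2 (by norm_num) (by norm_num), rfl⟩
  have hOm : O ∈ famA k ∪ famB k := Or.inl ⟨1, 0, 0, hO, by norm_num, by norm_num⟩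
  have hAm : A ∈ famA k ∪ famB k := Or.inr ⟨3, 1, 0, hA, by norm_num, by norm_num⟩
  have hUm : U ∈ famA k ∪ famB k := Or.inl ⟨5, 1, 2, hU, by norm_num, by norm_num⟩
  refine ⟨O, hOm, A, hAm, ?_, ?_⟩
  · intro h
    rw [h, hO] at hA
    have := (pt_inj hA).1
    omega
  · intro g hg hgO
    obtain ⟨hiso, himg⟩ := hg
    have hmem : ∀ x ∈ famA k ∪ famB k, g x ∈ famA k ∪ famB k := by
      intro x hx
      rw [← himg]
      exact Set.mem_image_of_mem g hx
    -- distances in terms of the form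
    have hlor : ∀ x y, lor (g x).1 (g y).1 = lor x.1 y.1 := fun x y =>
      (rho_eq_iff _ _ _ _).mp (hiso x y)
    have hlO : ∀ x, lor (pt k 1 0 0) (g x).1 = lor (pt k 1 0 0) x.1 := by
      intro x
      have := hlor O x
      rw [hgO, hO] at this
      exact this
    have hgA := shell3 (hmem A hAm) (by rw [hlO, hA, lor_pt]; norm_num)
    have hgU := shell5 (hmem U hUm) (by rw [hlO, hU, lor_pt]; norm_num)
    have hAU := hlor A U
    rw [hA, hU, lor_pt] at hAU
    apply Subtype.ext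
    rcases hgA with h | h | h
    · rw [h, hA]
    · exfalso
      rw [h] at hAU
      rcases hgU with h' | h' <;> rw [h', lor_pt] at hAU <;> norm_num at hAU
    · exfalso
      rw [h] at hAU
      rcases hgU with h' | h' <;> rw [h', lor_pt] at hAU <;> norm_num at hAU

/-- **Main result.** For every `n ≥ 2` there is a discrete configuration `C` in hyperbolic
`n`-space that is balanced but not group-balanced.  Moreover `C` contains two distinct points
`P`, `Q` such that every symmetry of `C` fixing `P` also fixes `Q` (so even the whole stabiliser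
of `P` has a fixed point other than `P`). -/
theorem result (n : ℕ) (hn : 2 ≤ n) :
    ∃ C : Set (Hyp n), IsDiscrete C ∧ IsBalanced C ∧ ¬ IsGroupBalanced C ∧
      ∃ P ∈ C, ∃ Q ∈ C, Q ≠ P ∧
        ∀ g : Hyp n ≃ Hyp n, IsSymmetry C g → g P = P → g Q = Q := by
  obtain ⟨k, rfl⟩ := Nat.exists_eq_add_of_le' hn
  obtain ⟨P, hP, Q, hQ, hne, hfix⟩ := rigid k
  refine ⟨famA k ∪ famB k, discrete k, balanced k, ?_, P, hP, Q, hQ, hne, hfix⟩
  intro hgb
  obtain ⟨g, hg, hfp⟩ := hgb P hP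
  have h1 : P ∈ {x | g x = x} := by
    rw [hfp]
    rfl
  have h2 : Q ∈ {x | g x = x} := hfix g hg h1
  rw [hfp] at h2
  exact hne h2

end Pool.Agent.Results.MP_906af0_co.BalancedNotGroupBalanced
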